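import Pool.Agent.Lib.MP_6b2d39_ag.Effective

/-!
Linear systems of plane curves through general fat points.  `fatSystem d m p` is the space of
polynomials of degree at most `d` in two variables (equations of plane curves of degree `d` in an
affine chart) with multiplicity at least `m i` at the point `p i`.
-/

namespace Pool.Agent.Results.MP_6b2d39_ag.EffectiveNonspeciality

open Pool.Agent.Lib.MP_6b2d39_ag

/-- Let `M` be an upper bound of the multiplicities `m i`, let `a` be an integer with
`a ^ 2 ≥ 9 * M - 1`, and put `N = 2 * (M + 1) * a` (about `6 * M ^ (3 / 2)`).  If `d + 1 ≥ N`, or if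
the number `∑ (m i + 1).choose 2` of conditions is at least `(N + 1).choose 2`, then for general
points `p i` the space of polynomials of degree at most `d` with multiplicity at least `m i` at each
`p i` has the expected dimension `max ((d + 2).choose 2 - ∑ (m i + 1).choose 2) 0`.
So for each `M` this holds for all `d` and all multiplicities between `1` and `M` with finitely many
explicit exceptions. -/
theorem result (M a d h : ℕ) (m : Fin h → ℕ) (hM : ∀ i, m i ≤ M)
    (ha : 9 * M ≤ a ^ 2 + 1)
    (hd : 2 * (M + 1) * a ≤ d + 1 ∨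
      (2 * (M + 1) * a + 1).choose 2 ≤ ∑ i, (m i + 1).choose 2) :
    ∃ Φ : MvPolynomial (Fin h × Fin 2) ℂ, Φ ≠ 0 ∧ ∀ p : Fin h → Fin 2 → ℂ,
      MvPolynomial.eval (fun q => p q.1 q.2) Φ ≠ 0 →
        (Module.finrank ℂ (fatSystem d m p) : ℤ) =
          max (((d + 2).choose 2 : ℤ) - ∑ i, ((m i + 1).choose 2 : ℤ)) 0 := by
  by_cases h1 : 2 * (M + 1) * a ≤ d + 1
  · exact effective_AH m hM ha h1
  · have h2 := hd.resolve_left h1
    obtain ⟨e, he⟩ : ∃ e, 2 * (M + 1) * a = e + 1 := ⟨2 * (M + 1) * a - 1, by omega⟩
    rw [he] at h1 h2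
    have hde : d ≤ e := by omega
    obtain ⟨Φ, hΦ, hΦ2⟩ := effective_AH (d := e) m hM ha (le_of_eq he)
    refine ⟨Φ, hΦ, ?_⟩
    intro p hp
    have h3 := hΦ2 p hp
    have h4 : (∑ i, ((m i + 1).choose 2 : ℤ)) = ((∑ i, (m i + 1).choose 2 : ℕ) : ℤ) := by
      push_cast
      rfl
    rw [h4] at h3 ⊢
    have h5 : (d + 2).choose 2 ≤ (e + 2).choose 2 := Nat.choose_le_choose 2 (by omega)
    have h6 : (e + 2).choose 2 = (e + 1 + 1).choose 2 := rfl
    have h7 : Module.finrank ℂ (fatSystem e m p) = 0 := by omega
    have hle : fatSystem d m p ≤ fatSystem e m p := by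
      unfold fatSystem
      apply inf_le_inf_right
      intro f hf
      rw [MvPolynomial.mem_restrictTotalDegree] at hf ⊢
      exact hf.trans hde
    have hfin : FiniteDimensional ℂ (fatSystem e m p) := by
      unfold fatSystem
      exact Submodule.finiteDimensional_of_le inf_le_left
    have h8 : Module.finrank ℂ (fatSystem d m p) = 0 := by
      have := Submodule.finrank_mono hle
      omega
    rw [h8]
    omega

end Pool.Agent.Results.MP_6b2d39_ag.EffectiveNonspeciality
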