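import Pool.Agent.Lib.MP_6b2d39_agStd.Std

/-!
Linear systems of plane curves through general fat points.  `fatSystem d m p` is the space of
polynomials of degree at most `d` in two variables (equations of plane curves of degree `d` in an
affine chart) with multiplicity at least `m i` at the point `p i`.

Cremona-reduced systems: the multiplicities are sorted, `m 0 ≥ m 1 ≥ m 2 ≥ m 3 ≥ ...`, and the
degree is at least `m 0 + m 1 + m 2`.
-/

namespace Pool.Agent.Results.MP_6b2d39_ag.ReducedSystems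

open Pool.Agent.Lib.MP_6b2d39_ag Pool.Agent.Lib.MP_6b2d39_agArr

/-- Let `m 0 ≥ m 1 ≥ m 2 ≥ m 3 ≥ ...` be the multiplicities, at least four of them, `m 3 ≥ 1`, and
let `e ≥ m 0 + m 1 + m 2` with `e + 1 ≥ m 1 + m 2 + 9 * (m 3) ^ 2 + 2 * m 3`.  If `d ≥ e`, or if the
number `∑ (m i + 1).choose 2` of conditions is at least `(e + 2).choose 2`, then for general points
`p i` the space of polynomials of degree at most `d` with multiplicity at least `m i` at each `p i`
has the expected dimension `max ((d + 2).choose 2 - ∑ (m i + 1).choose 2) 0`.  There is no condition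
on the number of points, nor any bound on the three largest multiplicities: every system with
`d ≥ m 0 + m 1 + m 2` is nonspecial as soon as `d + 1 ≥ m 1 + m 2 + 9 * (m 3) ^ 2 + 2 * m 3`, for
instance as soon as `m 0 ≥ 9 * (m 3) ^ 2 + 2 * m 3`. -/
theorem result (d e h : ℕ) (m : Fin (h + 4) → ℕ) (hm : Antitone m) (h3 : 1 ≤ m 3)
    (he : m 0 + m 1 + m 2 ≤ e)
    (he' : m 1 + m 2 + 9 * m 3 ^ 2 + 2 * m 3 ≤ e + 1)
    (hd : e ≤ d ∨ (e + 2).choose 2 ≤ ∑ i, (m i + 1).choose 2) :
    ∃ Φ : MvPolynomial (Fin (h + 4) × Fin 2) ℂ, Φ ≠ 0 ∧ ∀ p : Fin (h + 4) → Fin 2 → ℂ,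
      MvPolynomial.eval (fun q => p q.1 q.2) Φ ≠ 0 →
        (Module.finrank ℂ (fatSystem d m p) : ℤ) =
          max (((d + 2).choose 2 : ℤ) - ∑ i, ((m i + 1).choose 2 : ℤ)) 0 := by
  have v0 : ((0 : Fin (h + 4)) : ℕ) = 0 := rfl
  have v1 : ((1 : Fin (h + 4)) : ℕ) = 1 := rfl
  have v2 : ((2 : Fin (h + 4)) : ℕ) = 2 := rfl
  have v3 : ((3 : Fin (h + 4)) : ℕ) = 3 := rfl
  have key : ∀ c : ℕ, e ≤ c →
      ∃ Φ : MvPolynomial (Fin (h + 4) × Fin 2) ℂ, Φ ≠ 0 ∧ ∀ p : Fin (h + 4) → Fin 2 → ℂ,
        MvPolynomial.eval (fun q => p q.1 q.2) Φ ≠ 0 →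
          (Module.finrank ℂ (fatSystem c m p) : ℤ) =
            max (((c + 2).choose 2 : ℤ) - ∑ i, ((m i + 1).choose 2 : ℤ)) 0 := by
    intro c hc
    refine reduced_nonspecial (M := m 3) m 0 1 2 ?_ ?_ ?_ h3 ?_ ?_ ?_ (by omega) (by omega)
    · intro h'
      have := congrArg (fun i : Fin (h + 4) => (i : ℕ)) h'
      simp only [v0, v1] at this
      omega
    · intro h'
      have := congrArg (fun i : Fin (h + 4) => (i : ℕ)) h'
      simp only [v0, v2] at this
      omega
    · intro h'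
      have := congrArg (fun i : Fin (h + 4) => (i : ℕ)) h'
      simp only [v1, v2] at this
      omega
    · intro i hi0 hi1 hi2
      apply hm
      rw [Fin.le_def, v3]
      have a0 : (i : ℕ) ≠ 0 := fun h' => hi0 (Fin.ext (by rw [h', v0]))
      have a1 : (i : ℕ) ≠ 1 := fun h' => hi1 (Fin.ext (by rw [h', v1]))
      have a2 : (i : ℕ) ≠ 2 := fun h' => hi2 (Fin.ext (by rw [h', v2]))
      omega
    · apply hm
      rw [Fin.le_def, v1, v3]
      omega
    · apply hm
      rw [Fin.le_def, v2, v3]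
      omega
  rcases Nat.lt_or_ge d e with h1 | h1
  · have h2 := hd.resolve_left (by omega)
    obtain ⟨Φ, hΦ, hΦ2⟩ := key e le_rfl
    refine ⟨Φ, hΦ, ?_⟩
    intro p hp
    have h5 := hΦ2 p hp
    have h6 : (∑ i, ((m i + 1).choose 2 : ℤ)) = ((∑ i, (m i + 1).choose 2 : ℕ) : ℤ) := by
      push_cast
      rfl
    rw [h6] at h5 ⊢
    have h7 : (d + 2).choose 2 ≤ (e + 2).choose 2 := Nat.choose_le_choose 2 (by omega)
    have h8 : Module.finrank ℂ (fatSystem e m p) = 0 := by omega
    have hle : fatSystem d m p ≤ fatSystem e m p := by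
      unfold fatSystem
      apply inf_le_inf_right
      intro f hf
      rw [MvPolynomial.mem_restrictTotalDegree] at hf ⊢
      exact hf.trans h1.le
    have hfin : FiniteDimensional ℂ (fatSystem e m p) := by
      unfold fatSystem
      exact Submodule.finiteDimensional_of_le inf_le_left
    have h9 : Module.finrank ℂ (fatSystem d m p) = 0 := by
      have := Submodule.finrank_mono hle
      omega
    rw [h9]
    omega
  · exact key d h1

end Pool.Agent.Results.MP_6b2d39_ag.ReducedSystems
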