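import Pool.Agent.Lib.MP_6b2d39_ag.Rel.Relative

/-!
Linear systems of plane curves through general fat points.  `fatSystem d m p` is the space of
polynomials of degree at most `d` in two variables (equations of plane curves of degree `d` in an
affine chart) with multiplicity at least `m i` at the point `p i`.
-/

namespace Pool.Agent.Results.MP_6b2d39_ag.RelativeNonspeciality

open Pool.Agent.Lib.MP_6b2d39_ag

/-- Let `J` be a set of points, of any size and with any multiplicities, and let the multiplicities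
of all other points be at most `M`.  Let `γ * (γ + 3) ≥ 18 * M` and `e = d' + (2 * M + 1) * γ + 1`
(so `e - d'` is of order `8.5 * M ^ (3 / 2)`).  Suppose that the points of `J` impose independent
conditions on polynomials of degree at most `d'`, for some choice of their positions; this is the
case for instance if `∑ i ∈ J, m i ≤ d' + 1`, or if
`∑ i ∈ J, (m i + 1).choose 2 + (μ - 1) ^ 2 ≤ (d' + 2).choose 2` with `μ ≥ m i` for `i ∈ J`.
Then for every `d ≥ e`, and for every `d` if `∑ i, (m i + 1).choose 2 ≥ (e + 2).choose 2`, the space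
of polynomials of degree at most `d` with multiplicity at least `m i` at `p i` has the expected
dimension `max ((d + 2).choose 2 - ∑ i, (m i + 1).choose 2) 0` for general points `p i`. -/
theorem result (M γ d d' h : ℕ) (m : Fin h → ℕ) (J : Finset (Fin h))
    (hM : ∀ i, i ∉ J → m i ≤ M) (hM1 : 1 ≤ M) (hγ : 18 * M ≤ γ * (γ + 3))
    (hJ : (∃ q : Fin h → Fin 2 → ℂ,
        Module.finrank ℂ (fatSystem d' (fun i => if i ∈ J then m i else 0) q) +
          ∑ i ∈ J, (m i + 1).choose 2 = (d' + 2).choose 2) ∨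
      ∑ i ∈ J, m i ≤ d' + 1 ∨
      ∃ μ, 1 ≤ μ ∧ (∀ i ∈ J, m i ≤ μ) ∧
        ∑ i ∈ J, (m i + 1).choose 2 + (μ - 1) ^ 2 ≤ (d' + 2).choose 2)
    (hd : d' + (2 * M + 1) * γ + 1 ≤ d ∨
      (d' + (2 * M + 1) * γ + 1 + 2).choose 2 ≤ ∑ i, (m i + 1).choose 2) :
    ∃ Φ : MvPolynomial (Fin h × Fin 2) ℂ, Φ ≠ 0 ∧ ∀ p : Fin h → Fin 2 → ℂ,
      MvPolynomial.eval (fun q => p q.1 q.2) Φ ≠ 0 →
        (Module.finrank ℂ (fatSystem d m p) : ℤ) =
          max (((d + 2).choose 2 : ℤ) - ∑ i, ((m i + 1).choose 2 : ℤ)) 0 := by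
  by_cases h1 : d' + (2 * M + 1) * γ + 1 ≤ d
  · exact Rel.relative hM1 hγ h1 J m hM hJ
  · have h2 := hd.resolve_left h1
    obtain ⟨e, he⟩ : ∃ e, e = d' + (2 * M + 1) * γ + 1 := ⟨_, rfl⟩
    rw [← he] at h1 h2
    have hde : d ≤ e := by omega
    obtain ⟨Φ, hΦ, hΦ2⟩ := Rel.relative (d := e) hM1 hγ (le_of_eq he.symm) J m hM hJ
    refine ⟨Φ, hΦ, ?_⟩
    intro p hp
    have h3 := hΦ2 p hp
    have h4 : (∑ i, ((m i + 1).choose 2 : ℤ)) = ((∑ i, (m i + 1).choose 2 : ℕ) : ℤ) := by
      push_cast
      rfl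
    rw [h4] at h3 ⊢
    have h5 : (d + 2).choose 2 ≤ (e + 2).choose 2 := Nat.choose_le_choose 2 (by omega)
    have h7 : Module.finrank ℂ (fatSystem e m p) = 0 := by omega
    have hle : fatSystem d m p ≤ fatSystem e m p := by
      unfold fatSystem
      apply inf_le_inf_right
      intro f hf
      rw [MvPolynomial.mem_restrictTotalDegree] at hf ⊢
      exact hf.trans hde
    have hfin : FiniteDimensional ℂ (fatSystem e m p) := by
      unfold fatSystem
      exact Submodule.finiteDimensional_of_le inf_le_left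
    have h8 : Module.finrank ℂ (fatSystem d m p) = 0 := by
      have := Submodule.finrank_mono hle
      omega
    rw [h8]
    omega

end Pool.Agent.Results.MP_6b2d39_ag.RelativeNonspeciality
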